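import Pool.Agent.VTP.StmtsA

set_option autoImplicit false

namespace Pool.Agent.VTP.H16

open Finset Pool.Agent.ZOL Pool.Agent.VTP

theorem ni_union {V₁ V₂ : Finset ℕ} {i : ℕ → ℕ → Prop}
    (hi : ∀ c ∈ V₁, ∀ d ∈ V₂, ¬ i c d ∧ ¬ i d c) {S₁ S₂ : Finset ℕ} (h₁ : S₁ ⊆ V₁)
    (h₂ : S₂ ⊆ V₂) : NI i (S₁ ∪ S₂) ↔ NI i S₁ ∧ NI i S₂ := by
  constructor
  · intro h
    exact ⟨fun c hc d hd => h c (mem_union_left _ hc) d (mem_union_left _ hd),
      fun c hc d hd => h c (mem_union_right _ hc) d (mem_union_right _ hd)⟩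
  · rintro ⟨h1, h2⟩ c hc d hd
    rw [mem_union] at hc hd
    rcases hc with hc | hc
    · rcases hd with hd | hd
      · exact h1 c hc d hd
      · exact (hi c (h₁ hc) d (h₂ hd)).1
    · rcases hd with hd | hd
      · exact (hi d (h₁ hd) c (h₂ hc)).2
      · exact h2 c hc d hd

theorem nn_union {V₁ V₂ : Finset ℕ} {σ s : ℕ → ℤ} {i : ℕ → ℕ → Prop} (hV : Disjoint V₁ V₂)
    (hi : ∀ c ∈ V₁, ∀ d ∈ V₂, ¬ i c d ∧ ¬ i d c) {S₁ S₂ : Finset ℕ} (h₁ : S₁ ⊆ V₁)
    (h₂ : S₂ ⊆ V₂) :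
    NN (V₁ ∪ V₂) σ s i (S₁ ∪ S₂) = NN V₁ σ s i S₁ + NN V₂ σ s i S₂ := by
  classical
  unfold NN
  have hS : Disjoint S₁ S₂ := hV.mono h₁ h₂
  rw [sum_union hS, sum_union hV, filter_union, sum_union (hV.mono (filter_subset _ _)
    (filter_subset _ _))]
  have e1 : V₁.filter (fun d => d ∉ S₁ ∪ S₂ ∧ ∀ c ∈ S₁ ∪ S₂, ¬ i c d) =
      V₁.filter (fun d => d ∉ S₁ ∧ ∀ c ∈ S₁, ¬ i c d) := by
    apply filter_congr
    intro d hd
    constructor
    · rintro ⟨h1, h2⟩
      exact ⟨fun h => h1 (mem_union_left _ h), fun c hc => h2 c (mem_union_left _ hc)⟩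
    · rintro ⟨h1, h2⟩
      refine ⟨fun h => ?_, fun c hc => ?_⟩
      · rw [mem_union] at h
        rcases h with h | h
        · exact h1 h
        · exact Finset.disjoint_left.mp hV hd (h₂ h)
      · rw [mem_union] at hc
        rcases hc with hc | hc
        · exact h2 c hc
        · exact (hi d hd c (h₂ hc)).2
  have e2 : V₂.filter (fun d => d ∉ S₁ ∪ S₂ ∧ ∀ c ∈ S₁ ∪ S₂, ¬ i c d) =
      V₂.filter (fun d => d ∉ S₂ ∧ ∀ c ∈ S₂, ¬ i c d) := by
    apply filter_congr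
    intro d hd
    constructor
    · rintro ⟨h1, h2⟩
      exact ⟨fun h => h1 (mem_union_right _ h), fun c hc => h2 c (mem_union_right _ hc)⟩
    · rintro ⟨h1, h2⟩
      refine ⟨fun h => ?_, fun c hc => ?_⟩
      · rw [mem_union] at h
        rcases h with h | h
        · exact Finset.disjoint_left.mp hV (h₁ h) hd
        · exact h1 h
      · rw [mem_union] at hc
        rcases hc with hc | hc
        · exact (hi c (h₁ hc) d hd).1
        · exact h2 c hc
  rw [e1, e2]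
  ring

theorem pmu : PmuStmt := by
  intro R _ q hq V₁ V₂ σ s i hV hi hev
  classical
  unfold PP
  rw [sum_mul_sum, ← sum_product']
  symm
  refine sum_bij' (fun (p : Finset ℕ × Finset ℕ) _ => p.1 ∪ p.2)
    (fun (S : Finset ℕ) _ => (S ∩ V₁, S ∩ V₂)) ?_ ?_ ?_ ?_ ?_
  · rintro ⟨S₁, S₂⟩ hp
    simp only [mem_product, mem_filter, mem_powerset] at hp
    obtain ⟨⟨h1, h2⟩, h3, h4⟩ := hp
    simp only [mem_filter, mem_powerset]
    exact ⟨union_subset_union h1 h3, (ni_union hi h1 h3).mpr ⟨h2, h4⟩⟩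
  · intro S hS
    simp only [mem_filter, mem_powerset] at hS
    obtain ⟨h1, h2⟩ := hS
    simp only [mem_product, mem_filter, mem_powerset]
    exact ⟨⟨inter_subset_right, fun c hc d hd => h2 c (mem_inter.mp hc).1 d (mem_inter.mp hd).1⟩,
      inter_subset_right, fun c hc d hd => h2 c (mem_inter.mp hc).1 d (mem_inter.mp hd).1⟩
  · rintro ⟨S₁, S₂⟩ hp
    simp only [mem_product, mem_filter, mem_powerset] at hp
    obtain ⟨⟨h1, h2⟩, h3, h4⟩ := hp
    have e1 : (S₁ ∪ S₂) ∩ V₁ = S₁ := by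
      ext d
      rw [mem_inter, mem_union]
      constructor
      · rintro ⟨h5 | h5, h6⟩
        · exact h5
        · exact absurd h6 (fun h => Finset.disjoint_left.mp hV h (h3 h5))
      · intro h5
        exact ⟨Or.inl h5, h1 h5⟩
    have e2 : (S₁ ∪ S₂) ∩ V₂ = S₂ := by
      ext d
      rw [mem_inter, mem_union]
      constructor
      · rintro ⟨h5 | h5, h6⟩
        · exact absurd h6 (Finset.disjoint_left.mp hV (h1 h5))
        · exact h5
      · intro h5
        exact ⟨Or.inr h5, h3 h5⟩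
    simp only [e1, e2]
  · intro S hS
    simp only [mem_filter, mem_powerset] at hS
    simp only
    rw [← inter_union_distrib_left]
    exact inter_eq_left.mpr hS.1
  · rintro ⟨S₁, S₂⟩ hp
    simp only [mem_product, mem_filter, mem_powerset] at hp
    obtain ⟨⟨h1, h2⟩, h3, h4⟩ := hp
    simp only
    rw [nn_union hV hi h1 h3, prod_union (hV.mono h1 h3)]
    obtain ⟨m, hm⟩ := hev S₂ h3 h4
    have e1 : (NN V₁ σ s i S₁ + NN V₂ σ s i S₂) / 2 = NN V₁ σ s i S₁ / 2 + m := by omega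
    have e2 : NN V₂ σ s i S₂ / 2 = m := by omega
    rw [e1, e2, hq.2]
    ring

end Pool.Agent.VTP.H16
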